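import Pool.Agent.Q156.MK.C

set_option autoImplicit false

open MeasureTheory Set ProbabilityTheory

namespace Pool.Agent.Results.MP_aeb357_pr.MedianMonotone

/-- For every `m > -1/2` and `φ > 0`, if `X₁, X₂` are independent with law `Γ(m + 1/2, 1)`, then
the median (smallest `x` with `P(Z ≤ x) ≥ 1/2`) of
`Z = φ (1 - 1/c) X₁ + φ (1 + 1/c) X₂` is a strictly increasing function of `c ∈ (1, ∞)`. -/
theorem result (m φ : ℝ) (hm : -1 / 2 < m) (hφ : 0 < φ)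
    {Ω : Type*} [MeasurableSpace Ω] (P : Measure Ω) [IsProbabilityMeasure P] (X₁ X₂ : Ω → ℝ)
    (h₁ : AEMeasurable X₁ P) (h₂ : AEMeasurable X₂ P)
    (l₁ : P.map X₁ = gammaMeasure (m + 1 / 2) 1) (l₂ : P.map X₂ = gammaMeasure (m + 1 / 2) 1)
    (hi : IndepFun X₁ X₂ P) :
    StrictMonoOn (fun c : ℝ => sInf {x : ℝ | 1 / 2 ≤
      P.real {ω | φ * (1 - 1 / c) * X₁ ω + φ * (1 + 1 / c) * X₂ ω ≤ x}}) (Ioi 1) := by
  have hprod := (indepFun_iff_map_prod_eq_prod_map_map h₁ h₂).1 hi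
  rw [l₁, l₂] at hprod
  have key : ∀ c x : ℝ, P.real {ω | φ * (1 - 1 / c) * X₁ ω + φ * (1 + 1 / c) * X₂ ω ≤ x} =
      (Pool.Agent.Q156.MK.PP (m + 1 / 2)).real
        {p : ℝ × ℝ | φ * (1 - 1 / c) * p.1 + φ * (1 + 1 / c) * p.2 ≤ x} := by
    intro c x
    unfold Pool.Agent.Q156.MK.PP
    rw [← hprod, map_measureReal_apply_of_aemeasurable (h₁.prodMk h₂)
      (measurableSet_le (by fun_prop) measurable_const)]
    rfl
  intro c hc d hd hcd
  simp only [key]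
  have hc0 : (0 : ℝ) < c := lt_trans zero_lt_one hc
  have hd0 : (0 : ℝ) < d := lt_trans hc0 hcd
  exact Pool.Agent.Q156.MK.main (by linarith) hφ (one_div_pos.2 hd0).le
    (one_div_lt_one_div_of_lt hc0 hcd)
    ((div_lt_one hc0).2 hc)

end Pool.Agent.Results.MP_aeb357_pr.MedianMonotone
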